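import Pool.Agent.Lib.MP_32c80e_al.Rank

/-!
# The transfer theorems
-/

set_option autoImplicit false

namespace Pool.Agent.Lib.MP_32c80e_al

open FirstOrder

/-- The function symbols of the language of groups: identity, inversion, multiplication. -/
inductive GFun : ℕ → Type
  | one : GFun 0
  | inv : GFun 1
  | mul : GFun 2

/-- The first-order language of groups. -/
def Lg : Language := ⟨GFun, fun _ => Empty⟩

instance groupStructure (G : Type) [Group G] : Lg.Structure G where
  funMap := fun {n} (f : GFun n) => match n, f with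
    | _, GFun.one => fun _ => 1
    | _, GFun.inv => fun v => (v 0)⁻¹
    | _, GFun.mul => fun v => v 0 * v 1
  RelMap := fun r => Empty.elim r

theorem map_funMap {G H : Type} [Group G] [Group H] (f : G →* H) {n : ℕ} (F : Lg.Functions n) (x : Fin n → G) :
    f (Language.Structure.funMap F x) = Language.Structure.funMap F (f ∘ x) := by
  change GFun n at F
  cases F with
  | one => exact map_one f
  | inv => exact map_inv f (x 0)
  | mul => exact map_mul f (x 0) (x 1)

/-- A homomorphism of groups is a homomorphism of structures. -/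
def toHom {G H : Type} [Group G] [Group H] (f : G →* H) : G →[Lg] H where
  toFun := f
  map_fun' F x := map_funMap f F x
  map_rel' r := Empty.elim r

/-- An injective homomorphism of groups is an embedding of structures. -/
def toEmb {G H : Type} [Group G] [Group H] (f : G →* H) (hf : Function.Injective f) : G ↪[Lg] H where
  toFun := f
  inj' := hf
  map_fun' F x := map_funMap f F x
  map_rel' r := Empty.elim r

theorem realize_emb {G H : Type} [Group G] [Group H] (f : G →* H) (hf : Function.Injective f) {α : Type}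
    {φ : Lg.Formula α} (hφ : Language.BoundedFormula.IsQF φ) (v : α → G) : φ.Realize v ↔ φ.Realize (f ∘ v) := by
  have h1 := hφ.realize_embedding (toEmb f hf) (v := v) (xs := default)
  unfold Language.Formula.Realize
  rw [← h1]
  have h2 : (toEmb f hf) ∘ (default : Fin 0 → G) = default := Subsingleton.elim _ _
  rw [h2]
  rfl

theorem realize_hom {G H : Type} [Group G] [Group H] (f : G →* H) {α : Type} (t : Lg.Term α) (v : α → G) :
    t.realize (f ∘ v) = f (t.realize v) :=
  Language.HomClass.realize_term (toHom f)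

/-- A property of tuples which is preserved and reflected by embeddings. -/
def Abs {α : Type} (P : ∀ (G : Type) [Group G], (α → G) → Prop) : Prop :=
  ∀ (G H : Type) [Group G] [Group H] (f : G →* H), Function.Injective f → ∀ v : α → G, P G v ↔ P H (f ∘ v)

theorem abs_qf {α : Type} {φ : Lg.Formula α} (hφ : Language.BoundedFormula.IsQF φ) :
    Abs (fun (G : Type) [Group G] (v : α → G) => φ.Realize v) := fun _ _ _ _ f hf v => realize_emb f hf hφ v

/-- If two homomorphisms are injective on a subgroup which contains the tuple, the property transfers. -/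
theorem abs_transfer {α : Type} {P : ∀ (G : Type) [Group G], (α → G) → Prop} (hP : Abs P) {K G H : Type} [Group K]
    [Group G] [Group H] (f : K →* G) (g : K →* H) (hf : Function.Injective f) (hg : Function.Injective g)
    (v : α → K) : P G (f ∘ v) ↔ P H (g ∘ v) := (hP K G f hf v).symm.trans (hP K H g hg v)

/-- Easy direction. -/
theorem down {m p q : ℕ} {P : ∀ (G : Type) [Group G], ((Fin m ⊕ Fin p) ⊕ Fin q → G) → Prop} (hP : Abs P)
    (z : Fin m → Raag pathZ)
    (h : ∀ x : Fin p → Raag pathZ2, ∃ y : Fin q → Raag pathZ2, P (Raag pathZ2) (Sum.elim (Sum.elim (inc1 ∘ z) x) y))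
    (x : Fin p → Raag pathZ) : ∃ y : Fin q → Raag pathZ, P (Raag pathZ) (Sum.elim (Sum.elim z x) y) := by
  obtain ⟨y, hy⟩ := h (inc1 ∘ x)
  obtain ⟨n, hn⟩ := exists_Dn_fin (Sum.elim (Sum.elim (inc1 ∘ z) (inc1 ∘ x)) y)
  obtain ⟨w, hw⟩ : ∃ w : (Fin m ⊕ Fin p) ⊕ Fin q → Dn n, ∀ a, (w a : Raag pathZ2) =
      Sum.elim (Sum.elim (inc1 ∘ z) (inc1 ∘ x)) y a := ⟨fun a => ⟨_, hn a⟩, fun _ => rfl⟩
  have hw' : (Dn n).subtype ∘ w = Sum.elim (Sum.elim (inc1 ∘ z) (inc1 ∘ x)) y := funext hw
  have hinj : Function.Injective ((fold (2 * n + 2)).comp (Dn n).subtype) := fun a b hab =>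
    Subtype.ext (fold_injOn (by omega) a b a.2 b.2 hab)
  rw [← hw', abs_transfer hP (Dn n).subtype ((fold (2 * n + 2)).comp (Dn n).subtype) Subtype.val_injective hinj] at hy
  refine ⟨fun a => fold (2 * n + 2) (y a), ?_⟩
  have h1 : ((fold (2 * n + 2)).comp (Dn n).subtype) ∘ w =
      Sum.elim (Sum.elim z x) (fun a => fold (2 * n + 2) (y a)) := by
    funext a
    change fold (2 * n + 2) (w a : Raag pathZ2) = _
    rw [hw]
    rcases a with (a | a) | a
    · exact fold_inc1 _ _
    · exact fold_inc1 _ _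
    · rfl
  rw [h1] at hy
  exact hy

/-- Hard direction. -/
theorem up {m p q : ℕ} {P : ∀ (G : Type) [Group G], ((Fin m ⊕ Fin p) ⊕ Fin q → G) → Prop} (hP : Abs P)
    (z : Fin m → Raag pathZ)
    (h : ∀ x : Fin p → Raag pathZ, ∃ y : Fin q → Raag pathZ, P (Raag pathZ) (Sum.elim (Sum.elim z x) y))
    (x : Fin p → Raag pathZ2) :
    ∃ y : Fin q → Raag pathZ2, P (Raag pathZ2) (Sum.elim (Sum.elim (inc1 ∘ z) x) y) := by
  obtain ⟨n, hn⟩ := exists_Dn_fin (Sum.elim (inc1 ∘ z) x)
  obtain ⟨N, hN⟩ : ∃ N : ℤ, N = 2 * n + (2 * (2 * n + 1) + q) + 1 := ⟨_, rfl⟩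
  obtain ⟨y, hy⟩ := h (fun a => fold N (x a))
  obtain ⟨H, s, hs1, hs2, hs3⟩ := exists_section n q y N hN.ge
  have hmem : ∀ a, Sum.elim (Sum.elim z (fun a => fold N (x a))) y a ∈ H := by
    rintro ((a | a) | a)
    · obtain ⟨h1, -⟩ := hs3 _ (hn (Sum.inl a))
      have h2 : fold N (inc1 (z a)) ∈ H := h1
      rw [fold_inc1] at h2
      exact h2
    · exact (hs3 _ (hn (Sum.inr a))).1
    · exact hs2 a
  obtain ⟨w, hw⟩ : ∃ w : (Fin m ⊕ Fin p) ⊕ Fin q → H, ∀ a, (w a : Raag pathZ) =
      Sum.elim (Sum.elim z (fun a => fold N (x a))) y a := ⟨fun a => ⟨_, hmem a⟩, fun _ => rfl⟩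
  have hw' : H.subtype ∘ w = Sum.elim (Sum.elim z (fun a => fold N (x a))) y := funext hw
  have hinj : Function.Injective s := fun a b hab => Subtype.ext (by rw [← hs1 a, ← hs1 b, hab])
  rw [← hw', abs_transfer hP H.subtype s Subtype.val_injective hinj] at hy
  refine ⟨fun a => s (w (Sum.inr a)), ?_⟩
  have h1 : s ∘ w = Sum.elim (Sum.elim (inc1 ∘ z) x) (fun a => s (w (Sum.inr a))) := by
    funext a
    rcases a with (a | a) | a
    · obtain ⟨h2, h3⟩ := hs3 _ (hn (Sum.inl a))
      have h4 : w (Sum.inl (Sum.inl a)) = ⟨fold N (Sum.elim (inc1 ∘ z) x (Sum.inl a)), h2⟩ := by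
        refine Subtype.ext ?_
        rw [hw]
        exact (fold_inc1 N (z a)).symm
      change s (w (Sum.inl (Sum.inl a))) = inc1 (z a)
      rw [h4]
      exact h3
    · obtain ⟨h2, h3⟩ := hs3 _ (hn (Sum.inr a))
      have h4 : w (Sum.inl (Sum.inr a)) = ⟨fold N (Sum.elim (inc1 ∘ z) x (Sum.inr a)), h2⟩ := by
        refine Subtype.ext ?_
        rw [hw]
        rfl
      change s (w (Sum.inl (Sum.inr a))) = x a
      rw [h4]
      exact h3
    · rfl
  rw [h1] at hy
  exact hy

theorem core {m p q : ℕ} {P : ∀ (G : Type) [Group G], ((Fin m ⊕ Fin p) ⊕ Fin q → G) → Prop} (hP : Abs P)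
    (z : Fin m → Raag pathZ) :
    (∀ x : Fin p → Raag pathZ, ∃ y : Fin q → Raag pathZ, P (Raag pathZ) (Sum.elim (Sum.elim z x) y)) ↔
    ∀ x : Fin p → Raag pathZ2, ∃ y : Fin q → Raag pathZ2, P (Raag pathZ2) (Sum.elim (Sum.elim (inc1 ∘ z) x) y) :=
  ⟨fun h => up hP z h, fun h => down hP z h⟩

end Pool.Agent.Lib.MP_32c80e_al
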