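import Pool.Agent.Lib.MP_32c80e_al.Raag

/-!
# The lifting lemma

If a subgroup `H` of the group of the path contains no conjugate of a nontrivial power of `v_j`, then `H` lifts to the
free product of two copies: there is a section of `fold N` over `H`, which is the first inclusion on the vertices
`≤ j` and the second inclusion on the vertices `≥ j`.
-/

set_option autoImplicit false

namespace Pool.Agent.Lib.MP_32c80e_al

section twist

variable {G M X : Type} [Group G] [Group M] [MulAction G X]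

/-- The permutation `(x, m) ↦ (g x, c(x) m)`. -/
def twist (g : G) (c : X → M) : Equiv.Perm (X × M) where
  toFun p := (g • p.1, c p.1 * p.2)
  invFun p := (g⁻¹ • p.1, (c (g⁻¹ • p.1))⁻¹ * p.2)
  left_inv p := by
    refine Prod.ext (inv_smul_smul g p.1) ?_
    change (c (g⁻¹ • g • p.1))⁻¹ * (c p.1 * p.2) = p.2
    rw [inv_smul_smul, inv_mul_cancel_left]
  right_inv p := by
    refine Prod.ext (smul_inv_smul g p.1) ?_
    change c (g⁻¹ • p.1) * ((c (g⁻¹ • p.1))⁻¹ * p.2) = p.2
    rw [mul_inv_cancel_left]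

theorem twist_apply (g : G) (c : X → M) (x : X) (m : M) : twist g c (x, m) = (g • x, c x * m) := rfl

theorem twist_mul (g g' : G) (c c' : X → M) :
    twist g c * twist g' c' = twist (g * g') (fun x => c (g' • x) * c' x) := by
  refine Equiv.ext fun p => ?_
  rw [Equiv.Perm.mul_apply]
  refine Prod.ext ?_ ?_
  · exact (mul_smul g g' p.1).symm
  · exact (mul_assoc _ _ _).symm

theorem twist_inv (g : G) (c : X → M) : (twist g c)⁻¹ = twist g⁻¹ (fun x => (c (g⁻¹ • x))⁻¹) := Equiv.ext fun _ => rfl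

theorem twist_one : twist (1 : G) (fun _ : X => (1 : M)) = 1 := by
  refine Equiv.ext fun p => Prod.ext (one_smul G p.1) (one_mul p.2)

theorem exists_kap (t : G) (x₀ : X) (hfree : ∀ (k : ℤ) (x : X), t ^ k • x = x → k = 0) :
    ∃ κ : X → ℤ, κ x₀ = 0 ∧ ∀ x, κ (t • x) = κ x + 1 := by
  let st : Setoid X :=
    { r := fun x y => ∃ k : ℤ, t ^ k • x = y
      iseqv :=
        { refl := fun x => ⟨0, by rw [zpow_zero, one_smul]⟩
          symm := by
            rintro x y ⟨k, rfl⟩
            exact ⟨-k, by rw [zpow_neg, inv_smul_smul]⟩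
          trans := by
            rintro x y z ⟨k, rfl⟩ ⟨l, rfl⟩
            exact ⟨l + k, by rw [zpow_add, mul_smul]⟩ } }
  have h1 : ∀ x : X, ∃ k : ℤ, t ^ k • (Quotient.mk st x).out = x := fun x => by
    have h := Quotient.exact (Quotient.out_eq (Quotient.mk st x))
    exact h
  choose k hk using h1
  have h2 : ∀ x, k (t • x) = k x + 1 := by
    intro x
    have e0 : ∃ k : ℤ, t ^ k • x = t • x := ⟨1, by rw [zpow_one]⟩
    have e1 : Quotient.mk st (t • x) = Quotient.mk st x := (Quotient.sound (s := st) e0).symm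
    have e2 := hk (t • x)
    rw [e1] at e2
    have e3 : t ^ (k (t • x) - (k x + 1)) • ((t ^ (k x + 1)) • (Quotient.mk st x).out) =
        (t ^ (k x + 1)) • (Quotient.mk st x).out := by
      rw [← mul_smul, ← zpow_add, sub_add_cancel, e2, add_comm (k x), zpow_add, zpow_one, mul_smul, hk x]
    have e4 := hfree _ _ e3
    omega
  refine ⟨fun x => k x - k x₀, sub_self _, fun x => ?_⟩
  change k (t • x) - k x₀ = k x - k x₀ + 1
  rw [h2]
  ring

end twist

theorem exists_lift (H : Subgroup (Raag pathZ)) (j N : ℤ)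
    (hfree : ∀ (k : ℤ) (g : Raag pathZ), g⁻¹ * (gen j) ^ k * g ∈ H → k = 0) :
    ∃ s : H →* Raag pathZ2, (∀ h, fold N (s h) = h) ∧
      (∀ i, i ≤ j → ∀ hi : gen i ∈ H, s ⟨gen i, hi⟩ = gen (false, i)) ∧
      ∀ i, j ≤ i → ∀ hi : gen i ∈ H, s ⟨gen i, hi⟩ = gen (true, i - N) := by
  classical
  have hfree' : ∀ (k : ℤ) (x : Raag pathZ ⧸ H), (gen j : Raag pathZ) ^ k • x = x → k = 0 := by
    intro k x hx
    induction x using QuotientGroup.induction_on with
    | H g =>
      refine hfree k g ?_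
      have h1 : (((gen j) ^ k * g : Raag pathZ) : Raag pathZ ⧸ H) = (g : Raag pathZ ⧸ H) := hx
      have h2 := QuotientGroup.eq.1 h1.symm
      rw [mul_assoc]
      exact h2
  obtain ⟨κ, hκ0, hκ⟩ := exists_kap (gen j) ((1 : Raag pathZ) : Raag pathZ ⧸ H) hfree'
  obtain ⟨a, ha⟩ : ∃ a : Raag pathZ2, a = gen (false, j) := ⟨_, rfl⟩
  obtain ⟨b, hb⟩ : ∃ b : Raag pathZ2, b = gen (true, j - N) := ⟨_, rfl⟩
  obtain ⟨q, hq⟩ : ∃ q : Raag pathZ ⧸ H → Raag pathZ2, ∀ x, q x = b ^ κ x * a ^ (-κ x) := ⟨_, fun _ => rfl⟩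
  have hq0 : q ((1 : Raag pathZ) : Raag pathZ ⧸ H) = 1 := by
    rw [hq, hκ0, neg_zero, zpow_zero, zpow_zero, mul_one]
  have hqj : ∀ x, (q ((gen j : Raag pathZ) • x))⁻¹ * gen (true, j - N) * q x = gen (false, j) := by
    intro x
    rw [hq, hq, hκ, ← hb, ← ha]
    group
  let B : ℤ → (Raag pathZ ⧸ H) → Raag pathZ2 := fun i x => (q ((gen i : Raag pathZ) • x))⁻¹ * gen (true, i - N) * q x
  let c : ℤ → (Raag pathZ ⧸ H) → Raag pathZ2 := fun i => if i ≤ j then fun _ => gen (false, i) else B i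
  have hcA : ∀ i, i ≤ j → c i = fun _ => gen (false, i) := fun i hi => if_pos hi
  have hcB : ∀ i, j ≤ i → c i = B i := by
    intro i hi
    rcases hi.eq_or_lt with rfl | hi
    · rw [hcA j le_rfl]
      exact funext fun x => (hqj x).symm
    · exact if_neg (by omega)
  have hcomm : ∀ i : ℤ, twist (gen i : Raag pathZ) (c i) * twist (gen (i + 1) : Raag pathZ) (c (i + 1)) =
      twist (gen (i + 1) : Raag pathZ) (c (i + 1)) * twist (gen i : Raag pathZ) (c i) := by
    intro i
    have e0 : (gen i : Raag pathZ) * gen (i + 1) = gen (i + 1) * gen i := gen_comm (Or.inl rfl)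
    rw [twist_mul, twist_mul, e0]
    congr 1
    funext x
    rcases lt_or_ge i j with h | h
    · rw [hcA i h.le, hcA (i + 1) (by omega)]
      exact gen_comm ⟨rfl, Or.inl rfl⟩
    · rw [hcB i h, hcB (i + 1) (by omega)]
      change (q ((gen i : Raag pathZ) • (gen (i + 1) : Raag pathZ) • x))⁻¹ * gen (true, i - N) * q ((gen (i + 1) : Raag pathZ) • x) *
          ((q ((gen (i + 1) : Raag pathZ) • x))⁻¹ * gen (true, i + 1 - N) * q x) =
        (q ((gen (i + 1) : Raag pathZ) • (gen i : Raag pathZ) • x))⁻¹ * gen (true, i + 1 - N) * q ((gen i : Raag pathZ) • x) *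
          ((q ((gen i : Raag pathZ) • x))⁻¹ * gen (true, i - N) * q x)
      have e1 : (gen i : Raag pathZ) • (gen (i + 1) : Raag pathZ) • x = (gen (i + 1) : Raag pathZ) • (gen i : Raag pathZ) • x := by
        rw [← mul_smul, ← mul_smul, e0]
      have e2 : (gen (true, i - N) : Raag pathZ2) * gen (true, i + 1 - N) =
          gen (true, i + 1 - N) * gen (true, i - N) := by
        refine gen_comm ⟨rfl, Or.inl ?_⟩
        change i + 1 - N = i - N + 1
        ring
      rw [e1]
      have e3 : ∀ u v w y z : Raag pathZ2, u⁻¹ * v * w * (w⁻¹ * y * z) = u⁻¹ * (v * y) * z := fun u v w y z => by group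
      rw [e3, e3, e2]
  let ρ : Raag pathZ →* Equiv.Perm ((Raag pathZ ⧸ H) × Raag pathZ2) :=
    lift (fun i => twist (gen i : Raag pathZ) (c i)) (lift_path hcomm)
  have hρ : ∀ g : Raag pathZ, ∃ d : Raag pathZ ⧸ H → Raag pathZ2, ρ g = twist g d ∧ ∀ x, fold N (d x) = g := by
    intro g
    have hg : g ∈ Subgroup.closure (Set.range (gen : ℤ → Raag pathZ)) := by
      rw [closure_gen]
      exact Subgroup.mem_top g
    induction hg using Subgroup.closure_induction with
    | mem g hg =>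
      obtain ⟨i, rfl⟩ := hg
      refine ⟨c i, lift_gen _ _ i, fun x => ?_⟩
      rcases le_or_gt i j with h | h
      · rw [hcA i h]
        exact fold_false N i
      · rw [hcB i h.le]
        change fold N ((q ((gen i : Raag pathZ) • x))⁻¹ * gen (true, i - N) * q x) = gen i
        have e1 : ∀ x, fold N (q x) = 1 := by
          intro x
          rw [hq, map_mul, map_zpow, map_zpow, ha, hb, fold_false, fold_true, sub_add_cancel, ← zpow_add,
            add_neg_cancel, zpow_zero]
        rw [map_mul, map_mul, map_inv, e1, e1, inv_one, one_mul, mul_one, fold_true, sub_add_cancel]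
    | one => exact ⟨fun _ => 1, by rw [map_one, twist_one], fun x => map_one _⟩
    | mul g g' _ _ h h' =>
      obtain ⟨d, hd, hd'⟩ := h
      obtain ⟨e, he, he'⟩ := h'
      exact ⟨fun x => d (g' • x) * e x, by rw [map_mul, hd, he, twist_mul], fun x => by rw [map_mul, hd', he']⟩
    | inv g _ h =>
      obtain ⟨d, hd, hd'⟩ := h
      exact ⟨fun x => (d (g⁻¹ • x))⁻¹, by rw [map_inv, hd, twist_inv], fun x => by rw [map_inv, hd']⟩
  have hst : ∀ h : H, (h : Raag pathZ) • ((1 : Raag pathZ) : Raag pathZ ⧸ H) = ((1 : Raag pathZ) : Raag pathZ ⧸ H) := by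
    intro h
    refine QuotientGroup.eq.2 ?_
    change ((h : Raag pathZ) * 1)⁻¹ * 1 ∈ H
    rw [mul_one, mul_one]
    exact H.inv_mem h.2
  have key : ∀ (h : H) (m : Raag pathZ2), ρ h (((1 : Raag pathZ) : Raag pathZ ⧸ H), m) =
      (((1 : Raag pathZ) : Raag pathZ ⧸ H), (ρ h (((1 : Raag pathZ) : Raag pathZ ⧸ H), 1)).2 * m) := by
    intro h m
    obtain ⟨d, hd, -⟩ := hρ h
    rw [hd, twist_apply, twist_apply, hst h, mul_one]
  refine ⟨{ toFun := fun h => (ρ h (((1 : Raag pathZ) : Raag pathZ ⧸ H), 1)).2, map_one' := ?_, map_mul' := ?_ },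
    fun h => ?_, fun i hi hi' => ?_, fun i hi hi' => ?_⟩
  · rw [Subgroup.coe_one, map_one]
    rfl
  · intro h h'
    rw [Subgroup.coe_mul, map_mul, Equiv.Perm.mul_apply, key h' 1, key h, mul_one]
  · obtain ⟨d, hd, hd'⟩ := hρ h
    change fold N (ρ h (((1 : Raag pathZ) : Raag pathZ ⧸ H), 1)).2 = h
    rw [hd, twist_apply, mul_one]
    exact hd' _
  · change (ρ (gen i) (((1 : Raag pathZ) : Raag pathZ ⧸ H), 1)).2 = gen (false, i)
    have e1 : ρ (gen i) = twist (gen i) (c i) := lift_gen _ _ i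
    rw [e1, twist_apply, hcA i hi, mul_one]
  · change (ρ (gen i) (((1 : Raag pathZ) : Raag pathZ ⧸ H), 1)).2 = gen (true, i - N)
    have e1 : ρ (gen i) = twist (gen i) (c i) := lift_gen _ _ i
    have e2 : (gen i : Raag pathZ) • ((1 : Raag pathZ) : Raag pathZ ⧸ H) = ((1 : Raag pathZ) : Raag pathZ ⧸ H) :=
      hst ⟨gen i, hi'⟩
    rw [e1, twist_apply, hcB i hi, mul_one]
    change (q ((gen i : Raag pathZ) • ((1 : Raag pathZ) : Raag pathZ ⧸ H)))⁻¹ * gen (true, i - N) *
      q ((1 : Raag pathZ) : Raag pathZ ⧸ H) = gen (true, i - N)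
    rw [e2, hq0, inv_one, one_mul, mul_one]

end Pool.Agent.Lib.MP_32c80e_al
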