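import Mathlib

/-!
# Right-angled Artin groups over one and two bi-infinite paths

Basic definitions and the homomorphisms between the two groups.
-/

set_option autoImplicit false

namespace Pool.Agent.Lib.MP_32c80e_al

/-- The relators `[u, v]`, `u` and `v` adjacent. -/
def rels {V : Type} (D : SimpleGraph V) : Set (FreeGroup V) :=
  {r | ∃ u v, D.Adj u v ∧ r = FreeGroup.of u * FreeGroup.of v * (FreeGroup.of u)⁻¹ * (FreeGroup.of v)⁻¹}

/-- The right-angled Artin group of a graph: generated by the vertices, adjacent vertices commute. -/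
def Raag {V : Type} (D : SimpleGraph V) : Type := PresentedGroup (rels D)

instance {V : Type} (D : SimpleGraph V) : Group (Raag D) := inferInstanceAs (Group (PresentedGroup (rels D)))

/-- The generator of a vertex. -/
def gen {V : Type} {D : SimpleGraph V} (v : V) : Raag D := PresentedGroup.of v

/-- The bi-infinite path. -/
def pathZ : SimpleGraph ℤ where
  Adj n m := m = n + 1 ∨ n = m + 1
  symm := ⟨fun _ _ h => h.symm⟩
  loopless := ⟨fun n h => by omega⟩

/-- Two disjoint bi-infinite paths. -/
def pathZ2 : SimpleGraph (Bool × ℤ) where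
  Adj x y := x.1 = y.1 ∧ pathZ.Adj x.2 y.2
  symm := ⟨fun _ _ h => ⟨h.1.symm, h.2.symm⟩⟩
  loopless := ⟨fun x h => pathZ.loopless.irrefl x.2 h.2⟩

section basic

variable {V : Type} {D : SimpleGraph V} {G : Type*} [Group G]

theorem gen_comm {u v : V} (h : D.Adj u v) : (gen u : Raag D) * gen v = gen v * gen u := by
  have h1 : PresentedGroup.mk (rels D)
      (FreeGroup.of u * FreeGroup.of v * (FreeGroup.of u)⁻¹ * (FreeGroup.of v)⁻¹) = 1 :=
    (QuotientGroup.eq_one_iff _).2 (Subgroup.subset_normalClosure ⟨u, v, h, rfl⟩)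
  rw [map_mul, map_mul, map_mul, map_inv, map_inv, mul_inv_eq_one, mul_inv_eq_iff_eq_mul] at h1
  exact h1

/-- The universal property. -/
def lift (f : V → G) (h : ∀ u v, D.Adj u v → f u * f v = f v * f u) : Raag D →* G :=
  PresentedGroup.toGroup (f := f) (by
    rintro r ⟨u, v, huv, rfl⟩
    rw [map_mul, map_mul, map_mul, map_inv, map_inv, FreeGroup.lift_apply_of, FreeGroup.lift_apply_of, mul_inv_eq_one,
      mul_inv_eq_iff_eq_mul]
    exact h u v huv)

theorem lift_gen (f : V → G) (h : ∀ u v, D.Adj u v → f u * f v = f v * f u) (v : V) :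
    lift f h (gen v : Raag D) = f v := PresentedGroup.toGroup.of _

theorem closure_gen : Subgroup.closure (Set.range (gen : V → Raag D)) = ⊤ := PresentedGroup.closure_range_of _

theorem hom_ext {f g : Raag D →* G} (h : ∀ v, f (gen v) = g (gen v)) : f = g := PresentedGroup.ext h

end basic

theorem lift_path {G : Type*} [Group G] {f : ℤ → G} (h : ∀ i, f i * f (i + 1) = f (i + 1) * f i) (u v : ℤ)
    (huv : pathZ.Adj u v) : f u * f v = f v * f u := by
  rcases huv with rfl | rfl
  · exact h u
  · exact (h v).symm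

/-- The first inclusion. -/
def inc1 : Raag pathZ →* Raag pathZ2 :=
  lift (fun i => gen (false, i)) (lift_path fun _ => gen_comm ⟨rfl, Or.inl rfl⟩)

theorem inc1_gen (i : ℤ) : inc1 (gen i) = gen (false, i) := lift_gen _ _ i

/-- The homomorphism which is the identity on the first copy and the shift by `N` on the second. -/
def fold (N : ℤ) : Raag pathZ2 →* Raag pathZ :=
  lift (fun x => gen (x.2 + if x.1 then N else 0)) (by
    rintro ⟨a, u⟩ ⟨b, v⟩ ⟨h1, h2⟩
    obtain rfl : a = b := h1
    refine gen_comm ?_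
    rcases h2 with h2 | h2
    · left
      change v + _ = u + _ + 1
      rw [show v = u + 1 from h2]
      ring
    · right
      change u + _ = v + _ + 1
      rw [show u = v + 1 from h2]
      ring)

theorem fold_false (N i : ℤ) : fold N (gen (false, i)) = gen i := by
  refine (lift_gen _ _ _).trans ?_
  change gen (i + 0) = gen i
  rw [add_zero]

theorem fold_true (N i : ℤ) : fold N (gen (true, i)) = gen (i + N) := lift_gen _ _ _

theorem fold_inc1 (N : ℤ) (g : Raag pathZ) : fold N (inc1 g) = g := by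
  have h1 : (fold N).comp inc1 = MonoidHom.id _ := hom_ext fun i => by
    rw [MonoidHom.comp_apply, inc1_gen, fold_false, MonoidHom.id_apply]
  exact DFunLike.congr_fun h1 g

theorem inc1_injective : Function.Injective inc1 := fun a b h => by
  rw [← fold_inc1 0 a, h, fold_inc1]

/-- The subgroup generated by the vertices with `|i| ≤ n`. -/
def Dn (n : ℕ) : Subgroup (Raag pathZ2) :=
  Subgroup.closure ((fun x : Bool × ℤ => (gen x : Raag pathZ2)) '' {x | |x.2| ≤ n})

theorem gen_mem_Dn {n : ℕ} {x : Bool × ℤ} (h : |x.2| ≤ n) : (gen x : Raag pathZ2) ∈ Dn n :=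
  Subgroup.subset_closure ⟨x, h, rfl⟩

theorem Dn_mono {n m : ℕ} (h : n ≤ m) : Dn n ≤ Dn m := by
  refine Subgroup.closure_mono ?_
  rintro _ ⟨x, hx, rfl⟩
  have hx' : |x.2| ≤ (n : ℤ) := hx
  exact ⟨x, hx'.trans (by exact_mod_cast h), rfl⟩

theorem exists_Dn (g : Raag pathZ2) : ∃ n, g ∈ Dn n := by
  have hg : g ∈ Subgroup.closure (Set.range (gen : Bool × ℤ → Raag pathZ2)) := by
    rw [closure_gen]
    exact Subgroup.mem_top g
  induction hg using Subgroup.closure_induction with
  | mem g hg =>
    obtain ⟨x, rfl⟩ := hg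
    exact ⟨x.2.natAbs, gen_mem_Dn (Int.abs_eq_natAbs x.2).le⟩
  | one => exact ⟨0, Subgroup.one_mem _⟩
  | mul a b _ _ ha hb =>
    obtain ⟨n, hn⟩ := ha
    obtain ⟨m, hm⟩ := hb
    exact ⟨max n m, Subgroup.mul_mem _ (Dn_mono (le_max_left _ _) hn) (Dn_mono (le_max_right _ _) hm)⟩
  | inv a _ ha =>
    obtain ⟨n, hn⟩ := ha
    exact ⟨n, Subgroup.inv_mem _ hn⟩

theorem exists_Dn_fin {α : Type} [Finite α] (v : α → Raag pathZ2) : ∃ n, ∀ a, v a ∈ Dn n := by
  obtain ⟨_⟩ := nonempty_fintype α
  choose k hk using fun a => exists_Dn (v a)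
  exact ⟨Finset.univ.sup k, fun a => Dn_mono (Finset.le_sup (Finset.mem_univ a)) (hk a)⟩

/-- A left inverse of `fold N` on `Dn n`. -/
theorem exists_unfold {n : ℕ} {N : ℤ} (hN : 2 * n + 1 < N) :
    ∃ g : Raag pathZ →* Raag pathZ2, ∀ u ∈ Dn n, g (fold N u) = u := by
  let f : ℤ → Raag pathZ2 := fun i => if |i| ≤ n then gen (false, i) else if |i - N| ≤ n then gen (true, i - N) else 1
  have hf : ∀ i, f i * f (i + 1) = f (i + 1) * f i := by
    intro i
    simp only [f]
    by_cases h1 : |i| ≤ (n : ℤ)
    · rw [if_pos h1]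
      by_cases h2 : |i + 1| ≤ (n : ℤ)
      · rw [if_pos h2]
        exact gen_comm ⟨rfl, Or.inl rfl⟩
      · rw [if_neg h2, if_neg (by rw [abs_le] at *; omega), mul_one, one_mul]
    · rw [if_neg h1]
      by_cases h2 : |i + 1| ≤ (n : ℤ)
      · rw [if_pos h2, if_neg (by rw [abs_le] at *; omega), mul_one, one_mul]
      · rw [if_neg h2]
        by_cases h3 : |i - N| ≤ (n : ℤ)
        · rw [if_pos h3]
          by_cases h4 : |i + 1 - N| ≤ (n : ℤ)
          · rw [if_pos h4]
            refine gen_comm ⟨rfl, Or.inl ?_⟩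
            change i + 1 - N = i - N + 1
            ring
          · rw [if_neg h4, mul_one, one_mul]
        · rw [if_neg h3, mul_one, one_mul]
  refine ⟨lift f (lift_path hf), fun u hu => ?_⟩
  unfold Dn at hu
  induction hu using Subgroup.closure_induction with
  | mem u hu =>
    obtain ⟨⟨b, i⟩, hi, rfl⟩ := hu
    have hi' : |i| ≤ (n : ℤ) := hi
    cases b with
    | false =>
      change lift f (lift_path hf) (fold N (gen (false, i))) = gen (false, i)
      rw [fold_false, lift_gen]
      simp only [f]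
      rw [if_pos hi']
    | true =>
      change lift f (lift_path hf) (fold N (gen (true, i))) = gen (true, i)
      rw [fold_true, lift_gen]
      simp only [f]
      rw [if_neg (by rw [abs_le] at *; omega), if_pos (by rw [add_sub_cancel_right]; exact hi'), add_sub_cancel_right]
  | one => rw [map_one, map_one]
  | mul a b _ _ ha hb => rw [map_mul, map_mul, ha, hb]
  | inv a _ ha => rw [map_inv, map_inv, ha]

end Pool.Agent.Lib.MP_32c80e_al
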