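import Pool.Agent.Lib.MP_32c80e_al.Lifting

/-!
# A subgroup with few generators avoids the conjugates of some vertex; the transfer lemmas
-/

set_option autoImplicit false

namespace Pool.Agent.Lib.MP_32c80e_al

/-- Exponent sums of the vertices `m + 1, ..., m + r + 1`. -/
def expo (m : ℤ) (r : ℕ) : Raag pathZ →* Multiplicative (Fin (r + 1) → ℚ) :=
  lift (fun i => Multiplicative.ofAdd (fun a : Fin (r + 1) => if i = m + 1 + (a : ℕ) then (1 : ℚ) else 0))
    (lift_path fun _ => mul_comm _ _)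

theorem expo_gen (m : ℤ) (r : ℕ) (a : Fin (r + 1)) :
    expo m r (gen (m + 1 + (a : ℕ))) = Multiplicative.ofAdd (Pi.single a (1 : ℚ)) := by
  refine (lift_gen _ _ _).trans ?_
  congr 1
  funext b
  rcases eq_or_ne b a with rfl | h
  · rw [if_pos rfl, Pi.single_eq_same]
  · rw [Pi.single_eq_of_ne h, if_neg]
    intro h1
    refine h (Fin.ext ?_)
    omega

theorem exists_free (S : Finset (Raag pathZ)) (m : ℤ) (r : ℕ) (hS : S.card ≤ r) :
    ∃ j : ℤ, m < j ∧ j ≤ m + r + 1 ∧ ∀ (k : ℤ) (g : Raag pathZ),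
      g⁻¹ * (gen j) ^ k * g ∈ Subgroup.closure (S : Set (Raag pathZ)) → k = 0 := by
  classical
  by_contra hcon
  push Not at hcon
  have h1 : ∀ a : Fin (r + 1), ∃ (k : ℤ) (g : Raag pathZ),
      g⁻¹ * (gen (m + 1 + (a : ℕ))) ^ k * g ∈ Subgroup.closure (S : Set (Raag pathZ)) ∧ k ≠ 0 := by
    intro a
    obtain ⟨k, g, h2, h3⟩ := hcon (m + 1 + (a : ℕ)) (by omega) (by omega)
    exact ⟨k, g, h2, h3⟩
  let T : Finset (Fin (r + 1) → ℚ) := S.image (fun g => Multiplicative.toAdd (expo m r g))
  let W : Submodule ℚ (Fin (r + 1) → ℚ) := Submodule.span ℚ (T : Set (Fin (r + 1) → ℚ))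
  have h2 : ∀ g ∈ Subgroup.closure (S : Set (Raag pathZ)), Multiplicative.toAdd (expo m r g) ∈ W := by
    intro g hg
    induction hg using Subgroup.closure_induction with
    | mem g hg => exact Submodule.subset_span (Finset.mem_coe.2 (Finset.mem_image_of_mem _ hg))
    | one =>
      rw [map_one, toAdd_one]
      exact W.zero_mem
    | mul a b _ _ ha hb =>
      rw [map_mul, toAdd_mul]
      exact W.add_mem ha hb
    | inv a _ ha =>
      rw [map_inv, toAdd_inv]
      exact W.neg_mem ha
  have h3 : ∀ a : Fin (r + 1), (Pi.single a (1 : ℚ) : Fin (r + 1) → ℚ) ∈ W := by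
    intro a
    obtain ⟨k, g, h4, h5⟩ := h1 a
    have h6 := h2 _ h4
    rw [(expo m r).map_mul, (expo m r).map_mul, (expo m r).map_inv, (expo m r).map_zpow, expo_gen, toAdd_mul,
      toAdd_mul, toAdd_inv, toAdd_zpow, toAdd_ofAdd] at h6
    have h7 : -Multiplicative.toAdd (expo m r g) + k • (Pi.single a (1 : ℚ) : Fin (r + 1) → ℚ) +
        Multiplicative.toAdd (expo m r g) = (k : ℚ) • (Pi.single a (1 : ℚ) : Fin (r + 1) → ℚ) := by
      rw [Int.cast_smul_eq_zsmul]
      abel
    rw [h7] at h6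
    have h8 := W.smul_mem ((k : ℚ)⁻¹) h6
    rwa [smul_smul, inv_mul_cancel₀ (by exact_mod_cast h5), one_smul] at h8
  have h9 : W = ⊤ := by
    rw [eq_top_iff, ← (Pi.basisFun ℚ (Fin (r + 1))).span_eq, Submodule.span_le]
    rintro _ ⟨a, rfl⟩
    rw [Pi.basisFun_apply]
    exact h3 a
  have h10 : Module.finrank ℚ W ≤ T.card := finrank_span_finset_le_card T
  rw [h9, finrank_top, Module.finrank_fin_fun] at h10
  have h11 : T.card ≤ S.card := Finset.card_image_le
  omega

/-- The lift: a section of `fold N` over a subgroup which contains `fold N (Dn n)` and a given finite family, which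
sends `fold N u` to `u` for `u ∈ Dn n`. -/
theorem exists_section (n q : ℕ) (y : Fin q → Raag pathZ) (N : ℤ) (hN : 2 * n + (2 * (2 * n + 1) + q) + 1 ≤ N) :
    ∃ (H : Subgroup (Raag pathZ)) (s : H →* Raag pathZ2), (∀ h, fold N (s h) = h) ∧ (∀ a, y a ∈ H) ∧
      ∀ u ∈ Dn n, ∃ h : fold N u ∈ H, s ⟨fold N u, h⟩ = u := by
  classical
  let S : Finset (Raag pathZ) :=
    ((Finset.univ : Finset Bool) ×ˢ Finset.Icc (-(n : ℤ)) n).image (fun x => fold N (gen x)) ∪ Finset.univ.image y
  have hS : S.card ≤ 2 * (2 * n + 1) + q := by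
    refine (Finset.card_union_le _ _).trans (Nat.add_le_add ?_ ?_)
    · refine Finset.card_image_le.trans ?_
      rw [Finset.card_product, Finset.card_univ, Fintype.card_bool, Int.card_Icc]
      omega
    · exact Finset.card_image_le.trans (by rw [Finset.card_univ, Fintype.card_fin])
  obtain ⟨j, hj1, hj2, hj⟩ := exists_free S n _ hS
  obtain ⟨s, hs1, hs2, hs3⟩ := exists_lift (Subgroup.closure (S : Set (Raag pathZ))) j N hj
  refine ⟨Subgroup.closure (S : Set (Raag pathZ)), s, hs1, fun a => ?_, fun u hu => ?_⟩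
  · exact Subgroup.subset_closure (Finset.mem_coe.2 (Finset.mem_union_right _
      (Finset.mem_image_of_mem _ (Finset.mem_univ _))))
  · unfold Dn at hu
    induction hu using Subgroup.closure_induction with
    | mem u hu =>
      obtain ⟨⟨b, i⟩, hi, rfl⟩ := hu
      have hi' : |i| ≤ (n : ℤ) := hi
      have hi2 := abs_le.1 hi'
      have hmem : fold N (gen (b, i)) ∈ Subgroup.closure (S : Set (Raag pathZ)) :=
        Subgroup.subset_closure (Finset.mem_coe.2 (Finset.mem_union_left _ (Finset.mem_image_of_mem _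
          (Finset.mem_product.2 ⟨Finset.mem_univ _, Finset.mem_Icc.2 hi2⟩))))
      refine ⟨hmem, ?_⟩
      cases b with
      | false =>
        have hm2 : gen i ∈ Subgroup.closure (S : Set (Raag pathZ)) := by
          rw [← fold_false N i]
          exact hmem
        have e1 : (⟨fold N (gen (false, i)), hmem⟩ : Subgroup.closure (S : Set (Raag pathZ))) = ⟨gen i, hm2⟩ :=
          Subtype.ext (fold_false N i)
        change s ⟨fold N (gen (false, i)), hmem⟩ = gen (false, i)
        rw [e1, hs2 i (by omega) hm2]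
      | true =>
        have hm2 : gen (i + N) ∈ Subgroup.closure (S : Set (Raag pathZ)) := by
          rw [← fold_true N i]
          exact hmem
        have e1 : (⟨fold N (gen (true, i)), hmem⟩ : Subgroup.closure (S : Set (Raag pathZ))) = ⟨gen (i + N), hm2⟩ :=
          Subtype.ext (fold_true N i)
        change s ⟨fold N (gen (true, i)), hmem⟩ = gen (true, i)
        rw [e1, hs3 (i + N) (by omega) hm2, add_sub_cancel_right]
    | one =>
      have hm : fold N 1 ∈ Subgroup.closure (S : Set (Raag pathZ)) := by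
        rw [map_one]
        exact Subgroup.one_mem _
      refine ⟨hm, ?_⟩
      have e1 : (⟨fold N 1, hm⟩ : Subgroup.closure (S : Set (Raag pathZ))) = 1 := Subtype.ext (map_one _)
      rw [e1, map_one]
    | mul a b _ _ ha hb =>
      obtain ⟨ha1, ha2⟩ := ha
      obtain ⟨hb1, hb2⟩ := hb
      have hm : fold N (a * b) ∈ Subgroup.closure (S : Set (Raag pathZ)) := by
        rw [map_mul]
        exact Subgroup.mul_mem _ ha1 hb1
      refine ⟨hm, ?_⟩
      have e1 : (⟨fold N (a * b), hm⟩ : Subgroup.closure (S : Set (Raag pathZ))) = ⟨fold N a, ha1⟩ * ⟨fold N b, hb1⟩ :=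
        Subtype.ext (map_mul _ _ _)
      rw [e1, map_mul, ha2, hb2]
    | inv a _ ha =>
      obtain ⟨ha1, ha2⟩ := ha
      have hm : fold N a⁻¹ ∈ Subgroup.closure (S : Set (Raag pathZ)) := by
        rw [map_inv]
        exact Subgroup.inv_mem _ ha1
      refine ⟨hm, ?_⟩
      have e1 : (⟨fold N a⁻¹, hm⟩ : Subgroup.closure (S : Set (Raag pathZ))) = ⟨fold N a, ha1⟩⁻¹ :=
        Subtype.ext (map_inv _ _)
      rw [e1, map_inv, ha2]

/-- `fold N` is injective on `Dn n` if `N > 2 n + 1`. -/
theorem fold_injOn {n : ℕ} {N : ℤ} (hN : 2 * n + 1 < N) (u v : Raag pathZ2) (hu : u ∈ Dn n) (hv : v ∈ Dn n)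
    (h : fold N u = fold N v) : u = v := by
  obtain ⟨g, hg⟩ := exists_unfold hN
  rw [← hg u hu, ← hg v hv, h]


end Pool.Agent.Lib.MP_32c80e_al
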