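import Pool.Agent.Lib.MP_32c80e_al.Core

/-!
# Positive formulas and surjective homomorphisms
-/

set_option autoImplicit false

namespace Pool.Agent.Lib.MP_32c80e_al

open FirstOrder

theorem fold_surjective (N : ℤ) : Function.Surjective (fold N) := fun g => ⟨inc1 g, fold_inc1 N g⟩

/-- A surjective left inverse of `fold N` on `Dn n`. -/
theorem exists_unfold_surj {n : ℕ} {N : ℤ} (hN : 2 * n + 1 < N) :
    ∃ g : Raag pathZ →* Raag pathZ2, Function.Surjective g ∧ ∀ u ∈ Dn n, g (fold N u) = u := by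
  obtain ⟨e, he⟩ := exists_surjective_nat (Bool × ℤ)
  let f : ℤ → Raag pathZ2 := fun i => if -(n : ℤ) ≤ i ∧ i ≤ n then gen (false, i) else
    if -(n : ℤ) ≤ i - N ∧ i - N ≤ n then gen (true, i - N) else
    if N + n < i ∧ (i - N - n) % 2 = 0 then gen (e ((i - N - n) / 2 - 1).toNat) else 1
  have hf : ∀ i, f i * f (i + 1) = f (i + 1) * f i := by
    intro i
    simp only [f]
    split_ifs with h1 h2 h3 h4 h5 h6 h7 h8 h9 h10 h11 h12 h13 h14
    all_goals first
      | exact (mul_one _).trans (one_mul _).symm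
      | exact (one_mul _).trans (mul_one _).symm
      | exact gen_comm ⟨rfl, Or.inl rfl⟩
      | exact gen_comm ⟨rfl, Or.inl (by change i + 1 - N = i - N + 1; ring)⟩
      | exact absurd True.intro (by omega)
  refine ⟨lift f (lift_path hf), ?_, fun u hu => ?_⟩
  · rw [← MonoidHom.range_eq_top, eq_top_iff, ← closure_gen, Subgroup.closure_le]
    rintro _ ⟨x, rfl⟩
    obtain ⟨k, rfl⟩ := he x
    refine ⟨gen (N + n + 2 * (k + 1)), ?_⟩
    rw [lift_gen]
    simp only [f]
    rw [if_neg (by omega), if_neg (by omega), if_pos (by omega)]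
    congr 2
    omega
  · unfold Dn at hu
    induction hu using Subgroup.closure_induction with
    | mem u hu =>
      obtain ⟨⟨b, i⟩, hi, rfl⟩ := hu
      have hi' : |i| ≤ (n : ℤ) := hi
      have hi2 := abs_le.1 hi'
      cases b with
      | false =>
        change lift f (lift_path hf) (fold N (gen (false, i))) = gen (false, i)
        rw [fold_false, lift_gen]
        simp only [f]
        rw [if_pos hi2]
      | true =>
        change lift f (lift_path hf) (fold N (gen (true, i))) = gen (true, i)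
        rw [fold_true, lift_gen]
        simp only [f]
        rw [if_neg (by omega), if_pos (by omega), add_sub_cancel_right]
    | one => rw [map_one, map_one]
    | mul a b _ _ ha hb => rw [map_mul, map_mul, ha, hb]
    | inv a _ ha => rw [map_inv, map_inv, ha]

/-- Positive formulas: built from equations by conjunctions, disjunctions and quantifiers. -/
inductive IsPos {α : Type} : ∀ {n : ℕ}, Lg.BoundedFormula α n → Prop
  | equal {n : ℕ} (t u : Lg.Term (α ⊕ Fin n)) : IsPos (t.bdEqual u)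
  | inf {n : ℕ} {φ ψ : Lg.BoundedFormula α n} : IsPos φ → IsPos ψ → IsPos (φ ⊓ ψ)
  | sup {n : ℕ} {φ ψ : Lg.BoundedFormula α n} : IsPos φ → IsPos ψ → IsPos (φ ⊔ ψ)
  | all {n : ℕ} {φ : Lg.BoundedFormula α (n + 1)} : IsPos φ → IsPos φ.all
  | ex {n : ℕ} {φ : Lg.BoundedFormula α (n + 1)} : IsPos φ → IsPos φ.ex

theorem pos_bounded {G H : Type} [Group G] [Group H] (f : G →* H) (hf : Function.Surjective f) {α : Type} {n : ℕ}
    {φ : Lg.BoundedFormula α n} (hφ : IsPos φ) (v : α → G) (xs : Fin n → G) :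
    φ.Realize v xs → φ.Realize (f ∘ v) (f ∘ xs) := by
  induction hφ with
  | equal t u =>
    intro h
    rw [Language.BoundedFormula.realize_bdEqual] at h ⊢
    rw [← Sum.comp_elim, realize_hom, realize_hom, h]
  | inf _ _ ih1 ih2 =>
    intro h
    rw [Language.BoundedFormula.realize_inf] at h ⊢
    exact ⟨ih1 xs h.1, ih2 xs h.2⟩
  | sup _ _ ih1 ih2 =>
    intro h
    rw [Language.BoundedFormula.realize_sup] at h ⊢
    exact h.imp (ih1 xs) (ih2 xs)
  | all _ ih =>
    intro h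
    rw [Language.BoundedFormula.realize_all] at h ⊢
    intro b
    obtain ⟨a, rfl⟩ := hf b
    have h1 := ih _ (h a)
    rwa [Fin.comp_snoc] at h1
  | ex _ ih =>
    intro h
    rw [Language.BoundedFormula.realize_ex] at h ⊢
    obtain ⟨a, ha⟩ := h
    refine ⟨f a, ?_⟩
    have h1 := ih _ ha
    rwa [Fin.comp_snoc] at h1

theorem pos_formula {G H : Type} [Group G] [Group H] (f : G →* H) (hf : Function.Surjective f) {α : Type}
    {φ : Lg.Formula α} (hφ : IsPos φ) (v : α → G) (h : φ.Realize v) : φ.Realize (f ∘ v) := by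
  have h1 := pos_bounded f hf hφ v default h
  have h2 : f ∘ (default : Fin 0 → G) = default := Subsingleton.elim _ _
  rw [h2] at h1
  exact h1

/-- From one copy to two copies. -/
theorem sigma_up {m p K : ℕ} (θ P : Fin K → Lg.Formula (Fin m ⊕ Fin p))
    (hθ : ∀ k, Language.BoundedFormula.IsQF (θ k)) (hP : ∀ k, IsPos (P k)) (z : Fin m → Raag pathZ)
    (h : ∀ x : Fin p → Raag pathZ, ∃ k, (θ k).Realize (Sum.elim z x) ∧ (P k).Realize (Sum.elim z x))
    (x : Fin p → Raag pathZ2) :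
    ∃ k, (θ k).Realize (Sum.elim (inc1 ∘ z) x) ∧ (P k).Realize (Sum.elim (inc1 ∘ z) x) := by
  obtain ⟨n, hn⟩ := exists_Dn_fin (Sum.elim (inc1 ∘ z) x)
  obtain ⟨g, hg1, hg2⟩ := exists_unfold_surj (n := n) (N := 2 * n + 2) (by omega)
  obtain ⟨k, hk1, hk2⟩ := h (fun a => fold (2 * n + 2) (x a))
  have h1 : Sum.elim z (fun a => fold (2 * n + 2) (x a)) = fold (2 * n + 2) ∘ Sum.elim (inc1 ∘ z) x := by
    funext a
    rcases a with a | a
    · exact (fold_inc1 _ _).symm
    · rfl
  rw [h1] at hk1 hk2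
  refine ⟨k, ?_, ?_⟩
  · obtain ⟨w, hw⟩ : ∃ w : Fin m ⊕ Fin p → Dn n, ∀ a, (w a : Raag pathZ2) = Sum.elim (inc1 ∘ z) x a :=
      ⟨fun a => ⟨_, hn a⟩, fun _ => rfl⟩
    have hw' : (Dn n).subtype ∘ w = Sum.elim (inc1 ∘ z) x := funext hw
    have hinj : Function.Injective ((fold (2 * n + 2)).comp (Dn n).subtype) := fun a b hab =>
      Subtype.ext (fold_injOn (by omega) a b a.2 b.2 hab)
    rw [← hw'] at hk1 ⊢
    rw [abs_transfer (abs_qf (hθ k)) (Dn n).subtype ((fold (2 * n + 2)).comp (Dn n).subtype) Subtype.val_injective hinj]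
    exact hk1
  · have h2 := pos_formula g hg1 (hP k) _ hk2
    have h3 : g ∘ (fold (2 * n + 2) ∘ Sum.elim (inc1 ∘ z) x) = Sum.elim (inc1 ∘ z) x := funext fun a => hg2 _ (hn a)
    rw [h3] at h2
    exact h2

/-- From two copies to one copy. -/
theorem sigma_down {m p K : ℕ} (θ P : Fin K → Lg.Formula (Fin m ⊕ Fin p))
    (hθ : ∀ k, Language.BoundedFormula.IsQF (θ k)) (hP : ∀ k, IsPos (P k)) (z : Fin m → Raag pathZ2) :
    ∃ N : ℤ, (∀ x : Fin p → Raag pathZ2, ∃ k, (θ k).Realize (Sum.elim z x) ∧ (P k).Realize (Sum.elim z x)) →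
      ∀ x : Fin p → Raag pathZ, ∃ k, (θ k).Realize (Sum.elim (fold N ∘ z) x) ∧
        (P k).Realize (Sum.elim (fold N ∘ z) x) := by
  obtain ⟨n, hn⟩ := exists_Dn_fin z
  refine ⟨2 * n + (2 * (2 * n + 1) + p) + 1, fun h x => ?_⟩
  obtain ⟨N, hN⟩ : ∃ N : ℤ, N = 2 * n + (2 * (2 * n + 1) + p) + 1 := ⟨_, rfl⟩
  rw [← hN]
  obtain ⟨H, s, hs1, hs2, hs3⟩ := exists_section n p x N hN.ge
  have hmem : ∀ a, Sum.elim (fold N ∘ z) x a ∈ H := by
    rintro (a | a)
    · exact (hs3 _ (hn a)).1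
    · exact hs2 a
  obtain ⟨w, hw⟩ : ∃ w : Fin m ⊕ Fin p → H, ∀ a, (w a : Raag pathZ) = Sum.elim (fold N ∘ z) x a :=
    ⟨fun a => ⟨_, hmem a⟩, fun _ => rfl⟩
  have hw' : H.subtype ∘ w = Sum.elim (fold N ∘ z) x := funext hw
  have hinj : Function.Injective s := fun a b hab => Subtype.ext (by rw [← hs1 a, ← hs1 b, hab])
  have h1 : s ∘ w = Sum.elim z (fun a => s (w (Sum.inr a))) := by
    funext a
    rcases a with a | a
    · obtain ⟨h2, h3⟩ := hs3 _ (hn a)
      have h4 : w (Sum.inl a) = ⟨fold N (z a), h2⟩ := Subtype.ext (hw _)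
      change s (w (Sum.inl a)) = z a
      rw [h4]
      exact h3
    · rfl
  obtain ⟨k, hk1, hk2⟩ := h (fun a => s (w (Sum.inr a)))
  rw [← h1] at hk1 hk2
  refine ⟨k, ?_, ?_⟩
  · rw [← hw', abs_transfer (abs_qf (hθ k)) H.subtype s Subtype.val_injective hinj]
    exact hk1
  · have h2 := pos_formula (fold N) (fold_surjective N) (hP k) _ hk2
    have h3 : fold N ∘ (s ∘ w) = Sum.elim (fold N ∘ z) x := by
      rw [← hw']
      exact funext fun a => hs1 (w a)
    rw [h3] at h2
    exact h2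

end Pool.Agent.Lib.MP_32c80e_al
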